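import Pool.Agent.GOC.VecO

/-!
# Zero-cycles on the hypersurfaces `det (A(z) - B(z) diag (w₀ ^ M₀, w₁ ^ M₁)) = 0`: definitions

`A(z)`, `B(z)` are `2 × 2` matrices, `z = (z₀, z₁)` is a point of the product of two projective lines, and the
entries of the row `l` of the matrices are forms of degree `(e l, d l)` in `z`, where
`e 0 + e 1 = d 0 + d 1 = 2`. The hypersurface `X` lies in the product of four projective lines. For
`M₀ = M₁ = 2` it is a Calabi-Yau hypersurface of degree `(2, 2, 2, 2)`. A point of the projective line over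
a field `K` is an element of `Option K`.
-/

set_option autoImplicit false

noncomputable section

namespace Pool.Agent.GOY

open Pool.Agent.ZCyc Pool.Agent.Dess Pool.Agent.GT Pool.Agent.TInc
open Pool.Agent.HGF (fst snd vlo)
open Pool.Agent.GOC (vo po)
open scoped Classical

/-- the value of the form of degree `(e, d)` with the coefficients `c a b` of `S ^ a * T ^ b` in
homogeneous coordinates `S`, `T` -/
def ev {k : Type} [Field k] (e d : ℕ) (c : ℕ → ℕ → k) {R : Type} [CommRing R] [Algebra k R]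
    (S T : Fin 2 → R) : R :=
  ∑ a ∈ Finset.range (e + 1), ∑ b ∈ Finset.range (d + 1), algebraMap k R (c a b) *
    (S 0 ^ a * S 1 ^ (e - a) * (T 0 ^ b * T 1 ^ (d - b)))

/-- The data of a hypersurface: `A l i`, `B l i` are the coefficients of the entries of the matrices in the
row `l` and the column `i`, forms of degree `(e l, d l)`; `M i` are the exponents. -/
structure Fam (k : Type) where
  /-- the degrees of the rows in the first coordinate -/
  e : Fin 2 → ℕ
  /-- the degrees of the rows in the second coordinate -/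
  d : Fin 2 → ℕ
  /-- the coefficients of the matrix `A` -/
  A : Fin 2 → Fin 2 → ℕ → ℕ → k
  /-- the coefficients of the matrix `B` -/
  B : Fin 2 → Fin 2 → ℕ → ℕ → k
  /-- the exponents -/
  M : Fin 2 → ℕ

variable {k : Type} [Field k]

/-! ### Linear algebra in dimension 2 -/

section Lin

variable {R : Type} [CommRing R]

/-- the determinant of two vectors -/
def wd (u v : Fin 2 → R) : R := u 0 * v 1 - u 1 * v 0

/-- the scalar product of two vectors -/
def pr (b u : Fin 2 → R) : R := b 0 * u 0 + b 1 * u 1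

/-- the orthogonal vector: `pr (og u) u = 0`, `pr b (og u) = wd b u` -/
def og (u : Fin 2 → R) : Fin 2 → R := ![u 1, -u 0]

/-- the product of a row vector and a matrix -/
def vm (b : Fin 2 → R) (N : Fin 2 → Fin 2 → R) : Fin 2 → R := fun l' => b 0 * N 0 l' + b 1 * N 1 l'

/-- the determinant of a matrix -/
def dm (N : Fin 2 → Fin 2 → R) : R := N 0 0 * N 1 1 - N 0 1 * N 1 0

/-- the transpose of a matrix -/
def tr (N : Fin 2 → Fin 2 → R) : Fin 2 → Fin 2 → R := fun l l' => N l' l

/-- a vector `b` with `b N = 0` (if `dm N = 0` and `N ≠ 0`) -/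
def nul (N : Fin 2 → Fin 2 → R) : Fin 2 → R :=
  if N 0 0 = 0 ∧ N 1 0 = 0 then ![N 1 1, -N 0 1] else ![N 1 0, -N 0 0]

end Lin

/-! ### The hypersurface -/

section Vec

variable (X : Fam k) {R : Type} [CommRing R] [Algebra k R]

/-- the column `i` of the matrix `A` at the point with the homogeneous coordinates `S`, `T` -/
def Fam.av (i : Fin 2) (S T : Fin 2 → R) : Fin 2 → R := fun l => ev (X.e l) (X.d l) (X.A l i) S T

/-- the column `i` of the matrix `B` -/
def Fam.bv (i : Fin 2) (S T : Fin 2 → R) : Fin 2 → R := fun l => ev (X.e l) (X.d l) (X.B l i) S T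

/-- the matrix `D_i = P_i β_i β'_i ^ t - α_i α'_i ^ t` (`α`, `β` the columns of `A`, `B` at `(S, T)`, `α'`, `β'` the
columns at `(S', T')`) -/
def Fam.Dv (i : Fin 2) (P : R) (S T S' T' : Fin 2 → R) : Fin 2 → Fin 2 → R := fun l l' =>
  P * (X.bv i S T l * X.bv i S' T' l') - X.av i S T l * X.av i S' T' l'

/-- the matrix `θ D_0 + D_1` -/
def Fam.Nv (θ : R) (P : Fin 2 → R) (S T S' T' : Fin 2 → R) : Fin 2 → Fin 2 → R := fun l l' =>
  θ * X.Dv 0 (P 0) S T S' T' l l' + X.Dv 1 (P 1) S T S' T' l l'

end Vec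

section Pt

variable (X : Fam k) {K : Type} [Field K] [Algebra k K]

/-- the column `i` of `A` at a point -/
def Fam.al (i : Fin 2) (z : Fin 2 → Option K) : Fin 2 → K := X.av i (vo (z 0)) (vo (z 1))

/-- the column `i` of `B` at a point -/
def Fam.be (i : Fin 2) (z : Fin 2 → Option K) : Fin 2 → K := X.bv i (vo (z 0)) (vo (z 1))

/-- the column `i` of the matrix `A(z) - B(z) diag (w ^ M)` -/
def Fam.ga (i : Fin 2) (z w : Fin 2 → Option K) : Fin 2 → K := fun l =>
  X.al i z l * snd (w i) ^ X.M i - X.be i z l * fst (w i) ^ X.M i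

/-- the matrix `D_i` for two points -/
def Fam.Dm (i : Fin 2) (P : K) (z z' : Fin 2 → Option K) : Fin 2 → Fin 2 → K := fun l l' =>
  P * (X.be i z l * X.be i z' l') - X.al i z l * X.al i z' l'

/-- the matrix `θ D_0 + D_1` for two points -/
def Fam.Nm (θ : K) (P : Fin 2 → K) (z z' : Fin 2 → Option K) : Fin 2 → Fin 2 → K := fun l l' =>
  θ * X.Dm 0 (P 0) z z' l l' + X.Dm 1 (P 1) z z' l l'

/-- the determinant of the matrix `A(z) - B(z) diag (w ^ M)` -/
def Fam.val (z w : Fin 2 → Option K) : K := wd (X.ga 0 z w) (X.ga 1 z w)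

/-- the points of the hypersurface over an extension field -/
def On (z w : Fin 2 → Option K) : Prop := X.val z w = 0

/-- the columns `i` of `A` and `B` are linearly independent, for `i = 0, 1` -/
def Reg (z : Fin 2 → Option K) : Prop := ∀ i, wd (X.al i z) (X.be i z) ≠ 0

end Pt

/-- `E` is a class function of a point of the hypersurface -/
def IsCF₁ [IsAlgClosed k] [CharZero k] (X : Fam k) {W : Type} [AddCommGroup W]
    (E : (Fin 2 → Option k) → (Fin 2 → Option k) → W) : Prop :=
  ∀ (K : Type) [Field K] [Algebra k K] (hK : IsCurve k K) (z w : Fin 2 → Option K)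
    (f : K), f ≠ 0 → On X z w →
    ((TInc.dv hK f).sum fun v a => a • E (fun i => vlo v (z i)) fun i => vlo v (w i)) = 0

/-- `E` is a class function of two points of the hypersurface -/
def IsCF₂ [IsAlgClosed k] [CharZero k] (X : Fam k) {W : Type} [AddCommGroup W]
    (E : (Fin 2 → Option k) → (Fin 2 → Option k) → (Fin 2 → Option k) → (Fin 2 → Option k) → W) :
    Prop :=
  ∀ (K : Type) [Field K] [Algebra k K] (hK : IsCurve k K) (z w z' w' : Fin 2 → Option K) (f : K),
    f ≠ 0 → On X z w → On X z' w' →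
    ((TInc.dv hK f).sum fun v a => a • E (fun i => vlo v (z i)) (fun i => vlo v (w i))
      (fun i => vlo v (z' i)) fun i => vlo v (w' i)) = 0

/-- `E` is a class function and an eigenfunction with the characters `χ` for the multiplication of the
coordinates `w_i` by roots of unity -/
structure IsCls₁ [IsAlgClosed k] [CharZero k] {R W : Type} [Field R] [AddCommGroup W] [Module R W]
    (X : Fam k) (χ : Fin 2 → k → R) (E : (Fin 2 → Option k) → (Fin 2 → Option k) → W) : Prop where
  cf : IsCF₁ X E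
  rot : ∀ z w i (u : k), u ^ X.M i = 1 → E z (HYG.rot i u w) = χ i u • E z w

/-- the same for functions of two points -/
structure IsCls₂ [IsAlgClosed k] [CharZero k] {R W : Type} [Field R] [AddCommGroup W] [Module R W]
    (X : Fam k) (χ : Fin 2 → k → R)
    (E : (Fin 2 → Option k) → (Fin 2 → Option k) → (Fin 2 → Option k) → (Fin 2 → Option k) → W) :
    Prop where
  cf : IsCF₂ X E
  left : ∀ z w z' w' i (u : k), u ^ X.M i = 1 → E z (HYG.rot i u w) z' w' = χ i u • E z w z' w'
  right : ∀ z w z' w' i (u : k), u ^ X.M i = 1 → E z w z' (HYG.rot i u w') = χ i u • E z w z' w'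

/-- the function with the two points exchanged -/
def til {W : Type}
    (E : (Fin 2 → Option k) → (Fin 2 → Option k) → (Fin 2 → Option k) → (Fin 2 → Option k) → W) :
    (Fin 2 → Option k) → (Fin 2 → Option k) → (Fin 2 → Option k) → (Fin 2 → Option k) → W :=
  fun z w z' w' => E z' w' z w

/-- The coordinates `w_i` of a point over `z` with `pr b α_i = w_i ^ M_i * pr b β_i`. -/
def Fam.wb (X : Fam k) (b : Fin 2 → k) (z : Fin 2 → Option k) (i : Fin 2) : k :=
  HYG.rt (X.M i) (pr b (X.al i z) / pr b (X.be i z))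

/-- The value of `E` at the pair of the point `(z, w)` with `pr b α_i = w_i ^ M_i * pr b β_i` and the point
`(z', c / w)`; zero if a coordinate `w_i` is `0` or `∞`. -/
def Eb (X : Fam k) {W : Type} [AddCommGroup W]
    (E : (Fin 2 → Option k) → (Fin 2 → Option k) → (Fin 2 → Option k) → (Fin 2 → Option k) → W)
    (c b : Fin 2 → k) (z z' : Fin 2 → Option k) : W :=
  if ∀ i, pr b (X.al i z) ≠ 0 ∧ pr b (X.be i z) ≠ 0 then
    E z (fun i => some (X.wb b z i)) z' (fun i => some (c i / X.wb b z i)) else 0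

/-- The function on the hypersurface `dm (X.Nm θ (c ^ M) z z') = 0` of degree `(2, 2, 2, 2)`: the value `Eb` for
the left null vector of the matrix. -/
def Ef (X : Fam k) {W : Type} [AddCommGroup W]
    (E : (Fin 2 → Option k) → (Fin 2 → Option k) → (Fin 2 → Option k) → (Fin 2 → Option k) → W)
    (c : Fin 2 → k) (θ : k) (z z' : Fin 2 → Option k) : W :=
  if X.Nm θ (fun i => c i ^ X.M i) z z' ≠ 0 ∧ Reg X z ∧ Reg X z' then
    Eb X E c (nul (X.Nm θ (fun i => c i ^ X.M i) z z')) z z' else 0

/-! ### The form of degree (2, 2, 2, 2) -/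

/-- the coefficient of `S ^ a * T ^ i` in the product of forms `u`, `v` of degrees `(e 0, d 0)`, `(e 1, d 1)` -/
def Fam.cm (X : Fam k) (u v : ℕ → ℕ → k) (a i : Fin 3) : k :=
  ∑ a₁ ∈ Finset.range (X.e 0 + 1), ∑ i₁ ∈ Finset.range (X.d 0 + 1),
    ∑ a₂ ∈ Finset.range (X.e 1 + 1), ∑ i₂ ∈ Finset.range (X.d 1 + 1),
      if a₁ + a₂ = a ∧ i₁ + i₂ = i then u a₁ i₁ * v a₂ i₂ else 0

/-- the columns `β_0`, `β_1`, `α_0`, `α_1` (`col l j`: the entry of the column `j` in the row `l`) -/
def Fam.col (X : Fam k) (l : Fin 2) : Fin 4 → ℕ → ℕ → k := ![X.B l 0, X.B l 1, X.A l 0, X.A l 1]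

/-- the coefficient of `S ^ a * T ^ i` in the form of degree `(2, 2)` given by the determinant of the
columns `j`, `j'` -/
def Fam.pl (X : Fam k) (j j' : Fin 4) (a i : Fin 3) : k :=
  X.cm (X.col 0 j) (X.col 1 j') a i - X.cm (X.col 0 j') (X.col 1 j) a i

/-- The form `dm (X.Nm θ P z z')` of degree `(2, 2, 2, 2)` in `z 0`, `z' 0`, `z 1`, `z' 1`. The matrix is the sum of
`δ j v_j v'_j ^ t`, where `v_j` are the columns, `δ = (θ P 0, P 1, -θ, -1)`, and its determinant is the sum
of `δ j δ j' (v_j ∧ v_j') (v'_j ∧ v'_j')` over all `j < j'`. -/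
def Fam.cf (X : Fam k) (θ : k) (P : Fin 2 → k) : GOC.Cf k := fun a b i j =>
  ∑ m : Fin 4, ∑ m' : Fin 4, if m < m' then
    (![θ * P 0, P 1, -θ, -1] : Fin 4 → k) m * (![θ * P 0, P 1, -θ, -1] : Fin 4 → k) m' *
      (X.pl m m' a i * X.pl m m' b j) else 0

end Pool.Agent.GOY
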