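import Pool.Agent.GOY.Defs
import Pool.Agent.ARS.Mov
import Pool.Agent.HYG.ATwo

/-!
# Auxiliary facts on places and paths
-/

set_option autoImplicit false
set_option linter.unusedSectionVars false

noncomputable section

namespace Pool.Agent.GOY

open Pool.Agent.ZCyc Pool.Agent.Dess Pool.Agent.GT Pool.Agent.TInc
open Pool.Agent.VFP (Om tt)
open Pool.Agent.HGF (fst snd vlo)
open Pool.Agent.GOC (vo po)
open Polynomial
open scoped Classical

section Places

variable {k : Type} [Field k] {K : Type} [Field K] [Algebra k K]

/-- an element whose power has a finite value different from zero -/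
theorem root_val [HasRes k K] {M : ℕ} (hM : 0 < M) {w : K} (v : Place k K) {x : k}
    (hx : v.At (w ^ M) x) (hx1 : x ≠ 0) : ∃ ω : k, ω ≠ 0 ∧ v.At w ω := by
  have h2 : w ∈ v.ring := by
    rcases v.ring.mem_or_inv_mem w with h | h
    · exact h
    · by_cases hw0 : w = 0
      · rw [hw0]
        exact v.ring.zero_mem
      by_contra h3
      have h4 : v.Vanishes w⁻¹ := by
        rw [Place.vanishes_iff_or]
        right
        rwa [inv_inv]
      have h5 : v.Vanishes ((w⁻¹) ^ M) := Place.Vanishes.pow v h4 hM.ne'
      have h6 : v.Vanishes ((w⁻¹) ^ M * w ^ M) := Place.Vanishes.mul v h5 hx.mem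
      rw [← mul_pow, inv_mul_cancel₀ hw0, one_pow] at h6
      have h7 : ¬ v.Vanishes (algebraMap k K 1) := Place.const_unit v one_ne_zero
      rw [_root_.map_one] at h7
      exact h7 h6
  obtain ⟨ω, hω⟩ := HasRes.res v w h2
  have h3 : ω ^ M = x := (hω.pow M).unique hx
  refine ⟨ω, ?_, hω⟩
  rintro rfl
  rw [zero_pow hM.ne'] at h3
  exact hx1 h3.symm

/-- the value `0` or `∞` of a power -/
theorem pow_bad [HasRes k K] {M : ℕ} (hM : 0 < M) {w : K} (v : Place k K)
    (h : vlo v (some w) = none ∨ vlo v (some w) = some 0) :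
    vlo v (some (w ^ M)) = none ∨ vlo v (some (w ^ M)) = some 0 := by
  rcases h1 : vlo v (some (w ^ M)) with _ | x
  · exact Or.inl rfl
  · by_cases hx : x = 0
    · exact Or.inr (by rw [hx])
    · exfalso
      have h2 : v.At (w ^ M) x := HYG.vl_eq.1 h1
      obtain ⟨ω, hω, hw⟩ := root_val hM v h2 hx
      rw [HGF.vlo_at hw] at h
      rcases h with h | h
      · cases h
      · exact hω (Option.some.inj h)

theorem vlo_zero (v : Place k K) : vlo v (some (0 : K)) = some 0 := by
  have := Place.at_const (v := v) (0 : k)
  rw [map_zero] at this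
  exact HGF.vlo_at this

theorem at_zero (v : Place k K) : v.At (0 : K) (0 : k) := by
  have := Place.at_const (v := v) (0 : k)
  rwa [map_zero] at this

theorem at_one (v : Place k K) : v.At (1 : K) (1 : k) := by
  have h1 := Place.at_const (v := v) (1 : k)
  rwa [map_one] at h1

/-- an element has a finite value different from zero or its value is `∞` or `0` -/
theorem val_cases (v : Place k K) (w : K) : (∃ ω : k, ω ≠ 0 ∧ v.At w ω) ∨
    (vlo v (some w) = none ∨ vlo v (some w) = some 0) := by
  rcases h : vlo v (some w) with _ | ω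
  · exact Or.inr (Or.inl rfl)
  · by_cases h0 : ω = 0
    · exact Or.inr (Or.inr (by rw [h0]))
    · exact Or.inl ⟨ω, h0, HYG.vl_eq.1 h⟩

end Places

section Paths

variable {k : Type} [Field k] [IsAlgClosed k] [CharZero k]

theorem tt_ne : tt k ≠ 0 := by
  intro h0
  obtain ⟨v', hv'⟩ := HYG.exists_place_tt (k := k) 1
  rw [h0] at hv'
  have h1 : v'.At (0 : Om k) 0 := Place.at_zero_iff.2 v'.vanishes_zero
  exact one_ne_zero (hv'.unique h1)

theorem transc_tt : Transcendental k (tt k) := by
  have h : Transcendental k (RatFunc.X : RatFunc k) := RatFunc.transcendental_X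
  exact (transcendental_algebraMap_iff (R := k) (S := RatFunc k) (A := Om k)
    (algebraMap (RatFunc k) (Om k)).injective (a := RatFunc.X)).2 h

/-- the inverse of an element with the value zero -/
theorem inv_none {v : Place k (Om k)} {f : Om k} (hv : v.At f 0) (hf : f ≠ 0) :
    vlo v (some f⁻¹) = none := by
  rw [HGF.vlo_some, HYG.vl_none_om]
  rcases (v.vanishes_iff_or _).1 (Place.at_zero_iff.1 hv) with h1 | h1
  · exact absurd h1 hf
  · exact h1

/-- the path from `x` to `c` -/
def pth (x : Option k) (c : k) : Om k :=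
  match x with
  | some a => (1 - tt k) * algebraMap k (Om k) a + tt k * algebraMap k (Om k) c
  | none => algebraMap k (Om k) c + (1 - tt k) / tt k

theorem pth_zero {v : Place k (Om k)} (hv : v.At (tt k) 0) (x : Option k) (c : k) :
    vlo v (some (pth x c)) = x := by
  have h1 : v.At (1 - tt k) 1 := by
    have h2 := (at_one v).sub hv
    rwa [sub_zero] at h2
  cases x with
  | some a =>
    apply HGF.vlo_at
    have h2 := (h1.mul (Place.at_const (v := v) a)).add (hv.mul (Place.at_const (v := v) c))
    rw [one_mul, zero_mul, add_zero] at h2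
    exact h2
  | none =>
    rw [HGF.vlo_some, HYG.vl_none_om]
    intro h2
    have h3 : (1 - tt k) / tt k ∉ v.ring :=
      HYG.none_ratio h1 one_ne_zero (Place.at_zero_iff.1 hv) tt_ne
    apply h3
    have h4 := sub_mem h2 (v.const_mem c)
    have h5 : pth (none : Option k) c - algebraMap k (Om k) c = (1 - tt k) / tt k := by
      unfold pth
      ring
    rwa [h5] at h4

theorem pth_one {v : Place k (Om k)} (hv : v.At (tt k) 1) (x : Option k) (c : k) :
    v.At (pth x c) c := by
  have h1 : v.At (1 - tt k) 0 := by
    have h2 := (at_one v).sub hv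
    rwa [sub_self] at h2
  cases x with
  | some a =>
    have h2 := (h1.mul (Place.at_const (v := v) a)).add (hv.mul (Place.at_const (v := v) c))
    rw [one_mul, zero_mul, zero_add] at h2
    exact h2
  | none =>
    have h2 := (Place.at_const (v := v) c).add (h1.div hv one_ne_zero)
    rw [zero_div, add_zero] at h2
    exact h2

/-- the point of the projective line over `Om k` with the value `x` above `t = 0` and the value
`none` above `t = 1` -/
def pthN (x : Option k) : Option (Om k) :=
  match x with
  | some a => some (algebraMap k (Om k) a + tt k / (1 - tt k))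
  | none => none

theorem pthN_zero {v : Place k (Om k)} (hv : v.At (tt k) 0) (x : Option k) :
    vlo v (pthN x) = x := by
  have h1 : v.At (1 - tt k) 1 := by
    have h2 := (at_one v).sub hv
    rwa [sub_zero] at h2
  cases x with
  | some a =>
    apply HGF.vlo_at
    have h2 := (Place.at_const (v := v) a).add (hv.div h1 one_ne_zero)
    rwa [zero_div, add_zero] at h2
  | none => rfl

theorem pthN_one {v : Place k (Om k)} (hv : v.At (tt k) 1) (x : Option k) :
    vlo v (pthN x) = none := by
  have h1 : v.At (1 - tt k) 0 := by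
    have h2 := (at_one v).sub hv
    rwa [sub_self] at h2
  have h0 : (1 : Om k) - tt k ≠ 0 := by
    intro h0
    apply transc_tt (k := k)
    rw [← sub_eq_zero.1 h0]
    exact isAlgebraic_one
  cases x with
  | some a =>
    show vlo v (some (algebraMap k (Om k) a + tt k / (1 - tt k))) = none
    rw [HGF.vlo_some, HYG.vl_none_om]
    intro h2
    have h3 : tt k / (1 - tt k) ∉ v.ring :=
      HYG.none_ratio hv one_ne_zero (Place.at_zero_iff.1 h1) h0
    apply h3
    have h4 := sub_mem h2 (v.const_mem a)
    rwa [add_sub_cancel_left] at h4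
  | none => rfl

/-- A function field with a transcendental element `T` and roots of three rational functions of `T`. -/
theorem exists_fieldT {M₀ M₁ : ℕ} (h₀ : 0 < M₀) (h₁ : 0 < M₁) (p₀ q₀ p₁ q₁ p q : k[X]) :
    ∃ (K : Type) (_ : Field K) (_ : Algebra k K) (_ : IsCurve k K) (T w₀ w₁ η : K),
      Transcendental k T ∧ w₀ ^ M₀ = aeval T p₀ / aeval T q₀ ∧
      w₁ ^ M₁ = aeval T p₁ / aeval T q₁ ∧ η ^ M₁ = aeval T p / aeval T q := by
  obtain ⟨K, i1, i2, hK, φ, w, hw⟩ := HYG.exists_roots (k := k)
    (HYG.isCurve_ratFunc (k := k)) (r := 3)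
    (M := ![M₀, M₁, M₁]) (by
      intro i
      fin_cases i
      · exact h₀
      · exact h₁
      · exact h₁)
    ![aeval RatFunc.X p₀ / aeval RatFunc.X q₀, aeval RatFunc.X p₁ / aeval RatFunc.X q₁,
      aeval RatFunc.X p / aeval RatFunc.X q]
  refine ⟨K, i1, i2, hK, φ RatFunc.X, w 0, w 1, w 2, fun h =>
    RatFunc.transcendental_X ((isAlgebraic_algHom_iff φ (φ : RatFunc k →+* K).injective).1 h),
    ?_, ?_, ?_⟩
  · have h := hw 0
    simp only [Matrix.cons_val_zero] at h
    rw [h, map_div₀, aeval_algHom_apply, aeval_algHom_apply]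
  · have h := hw 1
    simp only [Matrix.cons_val_one, Matrix.cons_val_zero] at h
    rw [h, map_div₀, aeval_algHom_apply, aeval_algHom_apply]
  · have h := hw 2
    simp only [Matrix.cons_val_two, Matrix.tail_cons, Matrix.head_cons] at h
    rw [h, map_div₀, aeval_algHom_apply, aeval_algHom_apply]

end Paths

end Pool.Agent.GOY
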